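import Mathlib

namespace Pool.Agent.Results.MP_387adc_co.NotUniversal

open Polynomial Finset

/-- The set `𝒫` of polynomials with all coefficients in `{0,1} ∪ ℚ_{≥2}`. -/
def PP : Set ℚ[X] := {p | ∀ i, p.coeff i = 0 ∨ p.coeff i = 1 ∨ 2 ≤ p.coeff i}

/-- `p ≤ q` pointwise on `[s,t]` -/
def PLe (s t : ℝ) (p q : ℚ[X]) : Prop := ∀ x ∈ Set.Icc s t, aeval x p ≤ aeval x q

/-- `(𝒫, ≤_𝒫)` is universal for countable preorders: every countable preorder order-embeds. -/
def Universal (s t : ℝ) : Prop :=
  ∀ (A : Type) [Countable A] [Preorder A],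
    ∃ f : A → PP, ∀ a a' : A, a ≤ a' ↔ PLe s t (f a : ℚ[X]) (f a' : ℚ[X])

theorem coeff_nonneg {p : ℚ[X]} (hp : p ∈ PP) (i : ℕ) : 0 ≤ p.coeff i := by
  rcases hp i with h | h | h <;> linarith

theorem pow_natDegree_le {p : ℚ[X]} (hp : p ∈ PP) (hp0 : p ≠ 0) {x : ℝ} (hx : 0 ≤ x) :
    x ^ p.natDegree ≤ aeval x p := by
  rw [aeval_eq_sum_range]
  have hlead : (1 : ℝ) ≤ ((p.coeff p.natDegree : ℚ) : ℝ) := by
    have h0 : p.coeff p.natDegree ≠ 0 := by
      rw [coeff_natDegree]; exact leadingCoeff_ne_zero.2 hp0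
    have : (1 : ℚ) ≤ p.coeff p.natDegree := by
      rcases hp p.natDegree with h | h | h
      · exact absurd h h0
      · exact h.ge
      · linarith
    exact_mod_cast this
  have h1 : p.coeff p.natDegree • x ^ p.natDegree ≤
      ∑ i ∈ range (p.natDegree + 1), p.coeff i • x ^ i := by
    apply Finset.single_le_sum (f := fun i => p.coeff i • x ^ i)
    · intro i _
      rw [Rat.smul_def]
      have : (0 : ℝ) ≤ ((p.coeff i : ℚ) : ℝ) := by exact_mod_cast coeff_nonneg hp i
      positivity
    · simp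
  refine le_trans ?_ h1
  rw [Rat.smul_def]
  have : 0 ≤ x ^ p.natDegree := by positivity
  nlinarith

theorem no_embedding (s t : ℝ) (hs : 1 < s) (hst : s < t) (f : WithTop (Finset ℕ) → PP)
    (hf : ∀ a a' : WithTop (Finset ℕ), a ≤ a' ↔ PLe s t (f a : ℚ[X]) (f a' : ℚ[X])) : False := by
  classical
  -- degree bound
  obtain ⟨D, hD⟩ : ∃ D : ℕ, aeval s (f ⊤ : ℚ[X]) < s ^ D := pow_unbounded_of_one_lt _ hs
  have hdeg : ∀ A : Finset ℕ, ((f (A : WithTop (Finset ℕ)) : PP) : ℚ[X]).natDegree < D := by
    intro A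
    by_cases h0 : ((f (A : WithTop (Finset ℕ)) : PP) : ℚ[X]) = 0
    · rw [h0, natDegree_zero]
      rcases Nat.eq_zero_or_pos D with h | h
      · exfalso
        rw [h, pow_zero] at hD
        -- evaluate: `f ⊤` is at least the strictly larger `f {0}` ...
        have h1 : ((f (({0} : Finset ℕ) : WithTop (Finset ℕ)) : PP) : ℚ[X]) ≠ 0 := by
          intro h2
          have h3 : PLe s t ((f (({0} : Finset ℕ) : WithTop (Finset ℕ)) : PP) : ℚ[X])
              ((f ((∅ : Finset ℕ) : WithTop (Finset ℕ)) : PP) : ℚ[X]) := by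
            intro x hx
            rw [h2, map_zero]
            by_cases h4 : ((f ((∅ : Finset ℕ) : WithTop (Finset ℕ)) : PP) : ℚ[X]) = 0
            · rw [h4, map_zero]
            · have hx0 : 0 ≤ x := by linarith [hx.1]
              exact le_trans (by positivity)
                (pow_natDegree_le (f ((∅ : Finset ℕ) : WithTop (Finset ℕ))).2 h4 hx0)
          have h5 := (hf _ _).2 h3
          rw [WithTop.coe_le_coe] at h5
          exact absurd (h5 (mem_singleton_self 0)) (notMem_empty 0)
        have h2 := pow_natDegree_le (f (({0} : Finset ℕ) : WithTop (Finset ℕ))).2 h1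
          (show 0 ≤ s by linarith)
        have h3 := (hf (({0} : Finset ℕ) : WithTop (Finset ℕ)) ⊤).1 le_top s ⟨le_rfl, hst.le⟩
        have h4 : (1 : ℝ) ≤ s ^ ((f (({0} : Finset ℕ) : WithTop (Finset ℕ)) : PP) : ℚ[X]).natDegree :=
          one_le_pow₀ hs.le
        linarith
      · exact h
    · have h1 := pow_natDegree_le (f (A : WithTop (Finset ℕ))).2 h0 (show 0 ≤ s by linarith)
      have h2 := (hf (A : WithTop (Finset ℕ)) ⊤).1 le_top s ⟨le_rfl, hst.le⟩
      exact (pow_lt_pow_iff_right₀ hs).1 (lt_of_le_of_lt (h1.trans h2) hD)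
  -- real polynomials
  set g : Finset ℕ → ℝ[X] := fun A =>
    ((f (A : WithTop (Finset ℕ)) : PP) : ℚ[X]).map (algebraMap ℚ ℝ) with hg
  have hgeval : ∀ (A : Finset ℕ) (x : ℝ),
      (g A).eval x = aeval x ((f (A : WithTop (Finset ℕ)) : PP) : ℚ[X]) := by
    intro A x
    rw [hg, eval_map_algebraMap]
  have hgdeg : ∀ A, (g A).degree < (D : WithBot ℕ) := by
    intro A
    refine lt_of_le_of_lt (degree_map_le) ?_
    exact lt_of_le_of_lt degree_le_natDegree (by exact_mod_cast hdeg A)
  have hmono : ∀ A B : Finset ℕ, A ⊆ B → ∀ x ∈ Set.Icc s t, (g A).eval x ≤ (g B).eval x := by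
    intro A B hAB x hx
    rw [hgeval, hgeval]
    exact (hf _ _).1 (WithTop.coe_le_coe.2 hAB) x hx
  -- separating points
  let at_ : Fin (D + 1) → Finset ℕ := fun i => {(i : ℕ)}
  let co : Fin (D + 1) → Finset ℕ := fun i => (range (D + 1)).erase (i : ℕ)
  have hsep : ∀ i : Fin (D + 1), ∃ x ∈ Set.Icc s t, (g (co i)).eval x < (g (at_ i)).eval x := by
    intro i
    by_contra hcon
    push Not at hcon
    have : PLe s t ((f (at_ i : WithTop (Finset ℕ)) : PP) : ℚ[X])
        ((f (co i : WithTop (Finset ℕ)) : PP) : ℚ[X]) := by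
      intro x hx
      rw [← hgeval, ← hgeval]
      exact hcon x hx
    have h5 := (hf _ _).2 this
    rw [WithTop.coe_le_coe] at h5
    have := h5 (mem_singleton_self (i : ℕ))
    simp [co] at this
  choose τ hτ hτ2 using hsep
  have hinj : Function.Injective τ := by
    intro i j hij
    by_contra hne
    have hne' : (i : ℕ) ≠ j := fun h => hne (Fin.ext h)
    have h1 : at_ j ⊆ co i := by
      intro x hx
      rw [mem_singleton.1 hx]
      simp only [co, mem_erase, mem_range]
      exact ⟨fun h => hne' h.symm, j.2⟩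
    have h2 : at_ i ⊆ co j := by
      intro x hx
      rw [mem_singleton.1 hx]
      simp only [co, mem_erase, mem_range]
      exact ⟨hne', i.2⟩
    have a1 := hτ2 i
    have a2 := hτ2 j
    have a3 := hmono _ _ h1 (τ i) (hτ i)
    have a4 := hmono _ _ h2 (τ j) (hτ j)
    rw [← hij] at a2 a4
    linarith
  -- weights
  set w : Fin (D + 1) → ℝ := fun i => ∏ j ∈ univ.erase i, (τ i - τ j) with hw
  have hw0 : ∀ i, w i ≠ 0 := by
    intro i
    rw [hw]
    apply prod_ne_zero_iff.2
    intro j hj
    rw [mem_erase] at hj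
    exact sub_ne_zero.2 (fun h => hj.1 (hinj h).symm)
  set I : Finset ℕ := (univ.filter (fun i : Fin (D + 1) => 0 < w i)).image (fun i : Fin (D + 1) => (i : ℕ)) with hI
  set J : Finset ℕ := (univ.filter (fun i : Fin (D + 1) => w i < 0)).image (fun i : Fin (D + 1) => (i : ℕ)) with hJ
  have hpos : ∀ i, 0 < w i → (g J).eval (τ i) < (g I).eval (τ i) := by
    intro i hi
    have h1 : at_ i ⊆ I := by
      intro x hx
      rw [mem_singleton.1 hx, hI]
      exact mem_image.2 ⟨i, by simp [hi], rfl⟩
    have h2 : J ⊆ co i := by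
      intro x hx
      rw [hJ] at hx
      obtain ⟨j, hj, rfl⟩ := mem_image.1 hx
      rw [mem_filter] at hj
      simp only [co, mem_erase, mem_range]
      refine ⟨?_, j.2⟩
      intro h
      have : j = i := Fin.ext h
      rw [this] at hj
      linarith [hj.2]
    have a1 := hmono _ _ h1 (τ i) (hτ i)
    have a2 := hmono _ _ h2 (τ i) (hτ i)
    have a3 := hτ2 i
    linarith
  have hneg : ∀ i, w i < 0 → (g I).eval (τ i) < (g J).eval (τ i) := by
    intro i hi
    have h1 : at_ i ⊆ J := by
      intro x hx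
      rw [mem_singleton.1 hx, hJ]
      exact mem_image.2 ⟨i, by simp [hi], rfl⟩
    have h2 : I ⊆ co i := by
      intro x hx
      rw [hI] at hx
      obtain ⟨j, hj, rfl⟩ := mem_image.1 hx
      rw [mem_filter] at hj
      simp only [co, mem_erase, mem_range]
      refine ⟨?_, j.2⟩
      intro h
      have : j = i := Fin.ext h
      rw [this] at hj
      linarith [hj.2]
    have a1 := hmono _ _ h1 (τ i) (hτ i)
    have a2 := hmono _ _ h2 (τ i) (hτ i)
    have a3 := hτ2 i
    linarith
  -- divided difference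
  have hPdeg : (g I - g J).degree < (D : WithBot ℕ) :=
    lt_of_le_of_lt (degree_sub_le _ _) (max_lt (hgdeg I) (hgdeg J))
  have hcard : (#(univ : Finset (Fin (D + 1))) : ℕ) = D + 1 := by simp
  have hsum := Lagrange.coeff_eq_sum (s := (univ : Finset (Fin (D + 1)))) (v := τ)
    (hinj.injOn) (P := g I - g J) (by
      rw [hcard]
      exact lt_trans hPdeg (by exact_mod_cast Nat.lt_succ_self D))
  rw [hcard, Nat.add_sub_cancel, coeff_eq_zero_of_degree_lt hPdeg] at hsum
  have hterm : ∀ i ∈ (univ : Finset (Fin (D + 1))),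
      0 < (g I - g J).eval (τ i) / ∏ j ∈ univ.erase i, (τ i - τ j) := by
    intro i _
    rcases lt_or_gt_of_ne (hw0 i) with h | h
    · have := hneg i h
      apply div_pos_of_neg_of_neg _ h
      rw [eval_sub]
      linarith
    · have := hpos i h
      apply div_pos _ h
      rw [eval_sub]
      linarith
  have := Finset.sum_pos hterm ⟨0, mem_univ 0⟩
  rw [← hsum] at this
  exact lt_irrefl _ this

/-- **Main theorem.** For all real `1 < s < t`, the preorder of polynomials with coefficients in
`{0,1} ∪ ℚ_{≥2}` under the pointwise order on `[s,t]` is not universal for countable preorders. -/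
theorem result (s t : ℝ) (hs : 1 < s) (hst : s < t) : ¬ Universal s t := by
  intro h
  obtain ⟨f, hf⟩ := h (WithTop (Finset ℕ))
  exact no_embedding s t hs hst f hf

end Pool.Agent.Results.MP_387adc_co.NotUniversal
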